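import Pool.Agent.E8helper78.FL.Stm

/-!
# The form of a Coxeter element, and noncrossing subspaces
-/

set_option autoImplicit false

open scoped RealInnerProductSpace NNReal

namespace Pool.Agent.E8helper42.FL

open Pool.Agent.E8helper78.FL

section

variable {V : Type} [NormedAddCommGroup V] [InnerProductSpace ℝ V]

theorem rf_apply' {a : V} (ha : ‖a‖ = 1) (x : V) : rf a x = x - (2 * ⟪a, x⟫) • a := by
  unfold rf
  rw [Submodule.reflection_orthogonal_apply, Submodule.reflection_singleton_apply, ha]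
  simp only [RCLike.ofReal_real_eq_id, id_eq, one_pow, div_one]
  rw [neg_sub, mul_smul, two_smul, two_smul]

theorem mem_Mov' (w : V ≃ₗᵢ[ℝ] V) (x : V) : x ∈ Mov w ↔ ∃ u, u - w u = x := by
  unfold Mov
  rw [LinearMap.mem_range]
  rfl

theorem pr_nil : pr ([] : List V) = 1 := rfl

theorem pr_cons (a : V) (L : List V) : pr (a :: L) = rf a * pr L := by
  unfold pr
  simp

theorem sub_pr_mem (L : List V) (h1 : ∀ a ∈ L, ‖a‖ = 1) (x : V) :
    x - pr L x ∈ Submodule.span ℝ {a | a ∈ L} := by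
  induction L with
  | nil => 
    rw [pr_nil]
    simp
  | cons a L ih =>
    have ha := h1 a (List.mem_cons_self)
    have ih' := ih (fun b hb => h1 b (List.mem_cons_of_mem _ hb))
    rw [pr_cons]
    have e : x - (rf a * pr L) x = (x - pr L x) + (2 * ⟪a, pr L x⟫) • a := by
      show x - rf a (pr L x) = _
      rw [rf_apply' ha]
      abel
    rw [e]
    refine Submodule.add_mem _ ?_ (Submodule.smul_mem _ _ (Submodule.subset_span ?_))
    · exact Submodule.span_mono (fun b hb => List.mem_cons_of_mem _ hb) ih'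
    · exact List.mem_cons_self

theorem rf_rf (a : V) (x : V) : rf a (rf a x) = x := by
  unfold rf
  exact Submodule.reflection_reflection _ _

theorem fix_pr (L : List V) (h1 : ∀ a ∈ L, ‖a‖ = 1) (hn : L.Nodup)
    (hi : LinearIndependent ℝ (fun a : {a // a ∈ L} => (a : V))) (x : V) (hx : pr L x = x) :
    ∀ a ∈ L, ⟪a, x⟫ = 0 := by
  induction L with
  | nil => 
    intro a ha
    simp at ha
  | cons a L ih =>
    have ha := h1 a (List.mem_cons_self)
    have h1' : ∀ b ∈ L, ‖b‖ = 1 := fun b hb => h1 b (List.mem_cons_of_mem _ hb)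
    have hi' : LinearIndepOn ℝ id {b : V | b ∈ a :: L} := hi
    have hn' := List.nodup_cons.mp hn
    have hi2 : LinearIndepOn ℝ id {b : V | b ∈ L} :=
      hi'.mono (fun b hb => List.mem_cons_of_mem _ hb)
    have hna : a ∉ Submodule.span ℝ {b : V | b ∈ L} := by
      have e : {b : V | b ∈ a :: L} = insert a {b : V | b ∈ L} := by
        ext b; simp
      rw [e, linearIndepOn_id_insert (by exact hn'.1)] at hi'
      exact hi'.2
    have e1 : pr L x = rf a x := by
      have h := hx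
      rw [pr_cons] at h
      have h2 : rf a (pr L x) = x := h
      rw [← h2, rf_rf a, h2]
    have h3 := sub_pr_mem L h1' x
    rw [e1, rf_apply' ha] at h3
    have h4 : (2 * ⟪a, x⟫) • a ∈ Submodule.span ℝ {b : V | b ∈ L} := by
      have e : x - (x - (2 * ⟪a, x⟫) • a) = (2 * ⟪a, x⟫) • a := by abel
      rwa [e] at h3
    have h5 : ⟪a, x⟫ = 0 := by
      by_contra h
      apply hna
      have h6 : (2 * ⟪a, x⟫) ≠ 0 := mul_ne_zero two_ne_zero h
      have := Submodule.smul_mem _ (2 * ⟪a, x⟫)⁻¹ h4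
      rwa [smul_smul, inv_mul_cancel₀ h6, one_smul] at this
    intro b hb
    rcases List.mem_cons.mp hb with rfl | hb
    · exact h5
    · refine ih h1' hn'.2 hi2 ?_ b hb
      rw [e1, rf_apply' ha, h5]
      simp

/-- the form is determined on the moved space -/
theorem sub_apply {E : V →ₗ[ℝ] V →ₗ[ℝ] ℝ} {w : V ≃ₗᵢ[ℝ] V} (h : Sub E w) (u : V) {z : V}
    (hz : z ∈ Mov w) : E (u - w u) z = ⟪u, z⟫ := by
  obtain ⟨u', rfl⟩ := (mem_Mov' w z).mp hz
  exact h u u'

theorem E_self {E : V →ₗ[ℝ] V →ₗ[ℝ] ℝ} {w : V ≃ₗᵢ[ℝ] V} (h : Sub E w) {x y : V}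
    (hx : x ∈ Mov w) (hy : y ∈ Mov w) : E x y + E y x = ⟪x, y⟫ := by
  obtain ⟨u, rfl⟩ := (mem_Mov' w x).mp hx
  obtain ⟨v, rfl⟩ := (mem_Mov' w y).mp hy
  rw [h u v, h v u]
  have e : ⟪w u, w v⟫ = ⟪u, v⟫ := w.inner_map_map u v
  simp only [inner_sub_left, inner_sub_right]
  rw [e, real_inner_comm v u, real_inner_comm v (w u)]
  ring

variable [FiniteDimensional ℝ V]

theorem dim_aux {M N K : Submodule ℝ V} {a : V} (hN : N ≤ M ⊓ K) (ha : a ∈ M) (haK : a ∉ K)
    (hM : M ≤ N ⊔ Submodule.span ℝ {a}) :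
    N = M ⊓ K ∧ Module.finrank ℝ (M ⊓ K : Submodule ℝ V) + 1 = Module.finrank ℝ M := by
  have h1 : Module.finrank ℝ M ≤ Module.finrank ℝ N + 1 := by
    calc Module.finrank ℝ M ≤ Module.finrank ℝ (N ⊔ Submodule.span ℝ {a} : Submodule ℝ V) :=
          Submodule.finrank_mono hM
      _ ≤ Module.finrank ℝ N + Module.finrank ℝ (Submodule.span ℝ {a} : Submodule ℝ V) :=
          Submodule.finrank_add_le_finrank_add_finrank _ _
      _ ≤ Module.finrank ℝ N + 1 := by
          have := finrank_span_le_card (R := ℝ) ({a} : Set V)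
          simp only [Set.toFinset_singleton, Finset.card_singleton] at this
          omega
  have h2 : M ⊓ K < M := by
    refine lt_of_le_of_ne inf_le_left (fun h => haK ?_)
    have : a ∈ M ⊓ K := by rw [h]; exact ha
    exact this.2
  have h3 := Submodule.finrank_lt_finrank_of_lt h2
  have h4 := Submodule.finrank_mono hN
  have h5 : N = M ⊓ K := Submodule.eq_of_le_of_finrank_le hN (by omega)
  refine ⟨h5, ?_⟩
  rw [h5] at h1
  omega

theorem ncl_aux {Φ : Set V} {E : V →ₗ[ℝ] V →ₗ[ℝ] ℝ} (hΦ : IsRoots Φ) {M : Submodule ℝ V}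
    (hM : NCs Φ E M) {a : V} (ha : a ∈ Φ) (haM : a ∈ M) :
    NCs Φ E (M ⊓ LinearMap.ker (E a)) ∧ NCs Φ E (M ⊓ LinearMap.ker (E.flip a)) ∧
    Module.finrank ℝ (M ⊓ LinearMap.ker (E a) : Submodule ℝ V) + 1 = Module.finrank ℝ M ∧
    Module.finrank ℝ (M ⊓ LinearMap.ker (E.flip a) : Submodule ℝ V) + 1 = Module.finrank ℝ M := by
  obtain ⟨w, hw, rfl, hE⟩ := hM
  have h1 : ‖a‖ = 1 := hΦ.unit a ha
  have haa : ⟪a, a⟫ = 1 := by rw [real_inner_self_eq_norm_sq, h1]; norm_num
  have hEaa : E a a = 1 / 2 := by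
    have := E_self hE haM haM
    rw [haa] at this
    linarith
  obtain ⟨b, hb⟩ := (mem_Mov' w a).mp haM
  have hwin : ∀ x y, ⟪w x, w y⟫ = ⟪x, y⟫ := fun x y => w.inner_map_map x y
  have hra : rf a ∈ Wg Φ := Subgroup.subset_closure ⟨a, ha, rfl⟩
  -- the first element
  have e1 : ∀ u, u - (rf a * w) u = (u - w u) + (2 * ⟪a, w u⟫) • a := by
    intro u
    show u - rf a (w u) = _
    rw [rf_apply' h1]
    abel
  have k1 : ∀ u, E a (u - (rf a * w) u) = 0 := by
    intro u
    rw [e1, map_add, map_smul, hEaa, smul_eq_mul]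
    have h2 : E a (u - w u) = ⟪b, u - w u⟫ := by
      rw [← hb]
      exact hE b u
    rw [h2]
    nth_rewrite 1 [← hb]
    rw [inner_sub_right, inner_sub_left, hwin]
    ring
  have m1 : Mov (rf a * w) ≤ Mov w ⊓ LinearMap.ker (E a) := by
    intro x hx
    obtain ⟨u, rfl⟩ := (mem_Mov' _ x).mp hx
    refine ⟨?_, k1 u⟩
    rw [e1]
    exact Submodule.add_mem _ ((mem_Mov' w _).mpr ⟨u, rfl⟩) (Submodule.smul_mem _ _ haM)
  have s1 : Sub E (rf a * w) := by
    intro u u'
    have hz : u' - (rf a * w) u' ∈ Mov (rf a * w) := (mem_Mov' _ _).mpr ⟨u', rfl⟩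
    have hz' := m1 hz
    have hk : E a (u' - (rf a * w) u') = 0 := k1 u'
    rw [e1 u, map_add, LinearMap.add_apply, map_smul, LinearMap.smul_apply, hk, smul_zero, add_zero]
    exact sub_apply hE u hz'.1
  have n1 : a ∉ LinearMap.ker (E a) := by
    intro h
    rw [LinearMap.mem_ker, hEaa] at h
    norm_num at h
  have g1 : Mov w ≤ Mov (rf a * w) ⊔ Submodule.span ℝ {a} := by
    intro x hx
    obtain ⟨u, rfl⟩ := (mem_Mov' _ x).mp hx
    have e : u - w u = (u - (rf a * w) u) + (-(2 * ⟪a, w u⟫)) • a := by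
      rw [e1, neg_smul]
      abel
    rw [e]
    exact Submodule.add_mem_sup ((mem_Mov' _ _).mpr ⟨u, rfl⟩)
      (Submodule.smul_mem _ _ (Submodule.subset_span rfl))
  -- the second element
  have e2 : ∀ u, u - (w * rf a) u = (rf a u - w (rf a u)) + (2 * ⟪a, u⟫) • a := by
    intro u
    show u - w (rf a u) = _
    have e : rf a u = u - (2 * ⟪a, u⟫) • a := rf_apply' h1 u
    have e' : u = rf a u + (2 * ⟪a, u⟫) • a := by rw [e]; abel
    have e'' : u - w (rf a u) = (rf a u + (2 * ⟪a, u⟫) • a) - w (rf a u) := by rw [← e']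
    rw [e'']
    abel
  have k2 : ∀ u, E (u - (w * rf a) u) a = 0 := by
    intro u
    rw [e2, map_add, LinearMap.add_apply, map_smul, LinearMap.smul_apply, hEaa, smul_eq_mul,
      sub_apply hE _ haM, rf_apply' h1, inner_sub_left, inner_smul_left, haa, real_inner_comm]
    simp only [conj_trivial]
    ring
  have m2 : Mov (w * rf a) ≤ Mov w ⊓ LinearMap.ker (E.flip a) := by
    intro x hx
    obtain ⟨u, rfl⟩ := (mem_Mov' _ x).mp hx
    refine ⟨?_, ?_⟩
    · rw [e2]
      exact Submodule.add_mem _ ((mem_Mov' w _).mpr ⟨rf a u, rfl⟩) (Submodule.smul_mem _ _ haM)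
    · show E.flip a _ = 0
      rw [LinearMap.flip_apply]
      exact k2 u
  have s2 : Sub E (w * rf a) := by
    intro u u'
    have hz : u' - (w * rf a) u' ∈ Mov (w * rf a) := (mem_Mov' _ _).mpr ⟨u', rfl⟩
    have hz' := m2 hz
    have hk : E (u' - (w * rf a) u') a = 0 := k2 u'
    have hs := E_self hE haM hz'.1
    rw [hk, add_zero] at hs
    rw [e2 u, map_add, LinearMap.add_apply, map_smul, LinearMap.smul_apply,
      sub_apply hE _ hz'.1, rf_apply' h1 u, inner_sub_left, inner_smul_left, hs, smul_eq_mul]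
    simp only [conj_trivial]
    ring
  have n2 : a ∉ LinearMap.ker (E.flip a) := by
    intro h
    rw [LinearMap.mem_ker, LinearMap.flip_apply, hEaa] at h
    norm_num at h
  have g2 : Mov w ≤ Mov (w * rf a) ⊔ Submodule.span ℝ {a} := by
    intro x hx
    obtain ⟨u, rfl⟩ := (mem_Mov' _ x).mp hx
    have e : u - w u = (rf a u - (w * rf a) (rf a u)) + (-(2 * ⟪a, rf a u⟫)) • a := by
      rw [e2, rf_rf, neg_smul]
      abel
    rw [e]
    exact Submodule.add_mem_sup ((mem_Mov' _ _).mpr ⟨rf a u, rfl⟩)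
      (Submodule.smul_mem _ _ (Submodule.subset_span rfl))
  obtain ⟨p1, q1⟩ := dim_aux m1 haM n1 g1
  obtain ⟨p2, q2⟩ := dim_aux m2 haM n2 g2
  exact ⟨⟨rf a * w, mul_mem hra hw, p1, s1⟩, ⟨w * rf a, mul_mem hw hra, p2, s2⟩, q1, q2⟩

end

theorem t_EEX : S_EEX := by
  intro V _ _ _ Φ L hL
  have h1 : ∀ a ∈ L, ‖a‖ = 1 := fun a ha => hL.roots.unit a (hL.mem a ha)
  set c := pr L with hc
  set T : V →ₗ[ℝ] V := LinearMap.id - (c.toLinearEquiv : V →ₗ[ℝ] V) with hT
  have hinj : Function.Injective T := by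
    rw [← LinearMap.ker_eq_bot, LinearMap.ker_eq_bot']
    intro x hx
    have h2 : pr L x = x := by
      have h3 : x - c x = 0 := hx
      rw [sub_eq_zero] at h3
      exact h3.symm
    have h4 := fix_pr L h1 hL.nodup hL.indep x h2
    have h5 : x ∈ (Submodule.span ℝ {a : V | a ∈ L})ᗮ := by
      rw [Submodule.mem_orthogonal]
      intro y hy
      induction hy using Submodule.span_induction with
      | mem y hy => exact h4 y hy
      | zero => exact inner_zero_left _
      | add y z _ _ hy hz => rw [inner_add_left, hy, hz, add_zero]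
      | smul t y _ hy => rw [inner_smul_left, hy, mul_zero]
    rw [hL.span, Submodule.top_orthogonal_eq_bot] at h5
    exact (Submodule.mem_bot ℝ).mp h5
  let e : V ≃ₗ[ℝ] V := LinearEquiv.ofInjectiveEndo T hinj
  refine ⟨(innerₗ V).comp (e.symm : V →ₗ[ℝ] V), ?_⟩
  intro u y
  have h6 : e u = u - c u := rfl
  show ⟪e.symm (u - c u), y⟫ = ⟪u, y⟫
  rw [← h6, LinearEquiv.symm_apply_apply]

theorem t_NCL : S_NCL := by
  intro V _ _ _ Φ c E hΦ hE hc
  have hs : Sub E c := fun u u' => hE u (u' - c u')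
  refine ⟨⟨c, hc, ?_, hs⟩, fun M hM a ha haM => ncl_aux hΦ hM ha haM⟩
  unfold Mov
  rw [LinearMap.range_eq_top, ← LinearMap.injective_iff_surjective, ← LinearMap.ker_eq_bot,
    LinearMap.ker_eq_bot']
  intro x hx
  have h3 : x - c x = 0 := hx
  have h4 := hE x x
  rw [h3, map_zero, LinearMap.zero_apply] at h4
  exact inner_self_eq_zero.mp h4.symm

end Pool.Agent.E8helper42.FL
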